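import Pool.Agent.H500.TH.Stm
import Pool.Agent.H199.HC.Cls
import Pool.Agent.H71.HC.Crt
import Pool.Agent.H962.HC.Split

set_option autoImplicit false
set_option linter.unusedSectionVars false

/-!
# Project TH (helper500), part D3: independent elements

Adapted from `Pool/Agent/H643/R2/CB1.lean` (helper643): all the conjugates of the elements are independent.
-/

namespace Pool.Agent.H139.TH.TCB1

open NumberField IsDedekindDomain Filter Topology Polynomial
open Pool.Agent.H500.HC Pool.Agent.H500.R2 Pool.Agent.H500.TH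
open Pool.Agent.H962.HC.Split (exists_lift cop_mem)

section

variable {K : Type} [Field K] [NumberField K]

theorem exists_prime (v : HeightOneSpectrum (𝓞 K)) : ∃ p : ℕ, p.Prime ∧ (p : 𝓞 K) ∈ v.asIdeal := by
  have key : ∀ N : ℕ, N ≠ 0 → (N : 𝓞 K) ∈ v.asIdeal → ∃ p : ℕ, p.Prime ∧ (p : 𝓞 K) ∈ v.asIdeal := by
    intro N
    induction N using Nat.strong_induction_on with
    | _ N ih =>
      intro hN hv
      have h1 : N ≠ 1 := by
        rintro rfl
        rw [Nat.cast_one] at hv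
        exact v.isPrime.ne_top ((Ideal.eq_top_iff_one _).2 hv)
      have hp := Nat.minFac_prime h1
      obtain ⟨n, hn⟩ := Nat.minFac_dvd N
      have hn0 : n ≠ 0 := by
        rintro rfl
        rw [mul_zero] at hn
        exact hN hn
      rw [hn, Nat.cast_mul] at hv
      rcases v.isPrime.mem_or_mem hv with h | h
      · exact ⟨_, hp, h⟩
      · refine ih n ?_ hn0 h
        have h2 := hp.two_le
        calc n < N.minFac * n := by nlinarith [Nat.pos_of_ne_zero hn0]
          _ = N := hn.symm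
  exact key _ (norm_ne_zero v) (norm_mem v)

theorem fin_mem {x : 𝓞 K} (hx : x ≠ 0) :
    {v : HeightOneSpectrum (𝓞 K) | x ∈ v.asIdeal}.Finite := by
  have h1 : Ideal.span {x} ≠ ⊥ := by rwa [Ne, Ideal.span_singleton_eq_bot]
  have h2 := Ideal.finite_factors h1
  refine h2.subset fun v hv => ?_
  show v.asIdeal ∣ Ideal.span {x}
  rw [Ideal.dvd_span_singleton]
  exact hv

theorem cop {N : ℕ} {v : HeightOneSpectrum (𝓞 K)} (h : (N : 𝓞 K) ∉ v.asIdeal) :
    IsCoprime v.asIdeal (Ideal.span {(N : 𝓞 K)}) := by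
  rw [Ideal.isCoprime_iff_sup_eq]
  have hm : v.asIdeal.IsMaximal := v.isMaximal
  by_contra hne
  have h1 : v.asIdeal = v.asIdeal ⊔ Ideal.span {(N : 𝓞 K)} := hm.eq_of_le hne le_sup_left
  apply h
  rw [h1]
  exact Ideal.mem_sup_right (Ideal.mem_span_singleton_self _)

/-- infinitely many of the places, in the same class -/
theorem exists_seq (N B h : ℕ) (R : Finset (Ideal (𝓞 K))) (V : Set (HeightOneSpectrum (𝓞 K)))
    (hV : V.Infinite)
    (hR : ∀ v ∈ V, ∃ 𝔯 ∈ R, ∃ x : 𝓞 K, InRay N x ∧ v.asIdeal * 𝔯 ^ (h - 1) = Ideal.span {x}) :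
    ∃ (𝔯 : Ideal (𝓞 K)) (q : ℕ → ℕ) (v : ℕ → HeightOneSpectrum (𝓞 K)) (x : ℕ → 𝓞 K),
      Function.Injective q ∧ ∀ n, (q n).Prime ∧ B < q n ∧ v n ∈ V ∧ (q n : 𝓞 K) ∈ (v n).asIdeal ∧
        InRay N (x n) ∧ (v n).asIdeal * 𝔯 ^ (h - 1) = Ideal.span {x n} := by
  set S : Ideal (𝓞 K) → Set ℕ := fun 𝔯 => {q | q.Prime ∧ B < q ∧ ∃ v ∈ V, (q : 𝓞 K) ∈ v.asIdeal ∧
    ∃ x : 𝓞 K, InRay N x ∧ v.asIdeal * 𝔯 ^ (h - 1) = Ideal.span {x}} with hS
  have hex : ∃ 𝔯 ∈ R, (S 𝔯).Infinite := by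
    by_contra hcon
    push Not at hcon
    have hfin : (⋃ 𝔯 ∈ R, S 𝔯).Finite := by
      refine Set.Finite.biUnion (Finset.finite_toSet R) fun 𝔯 h𝔯 => ?_
      exact hcon 𝔯 (Finset.mem_coe.1 h𝔯)
    apply hV
    have hfin2 : ((⋃ 𝔯 ∈ R, S 𝔯) ∪ {q | q ≤ B ∧ q ≠ 0}).Finite :=
      hfin.union ((Set.finite_Iic B).subset fun q hq => hq.1)
    refine (Set.Finite.biUnion (t := fun q : ℕ => {v : HeightOneSpectrum (𝓞 K) |
      (q : 𝓞 K) ∈ v.asIdeal ∧ q ≠ 0}) hfin2 fun q _ => ?_).subset ?_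
    · by_cases hq : q = 0
      · refine Set.finite_empty.subset fun v hv => absurd hq hv.2
      · exact (fin_mem (x := (q : 𝓞 K)) (by exact_mod_cast hq)).subset fun v hv => hv.1
    · intro v hv
      obtain ⟨p, hp, hpv⟩ := exists_prime v
      rw [Set.mem_iUnion₂]
      refine ⟨p, ?_, hpv, hp.ne_zero⟩
      by_cases hpB : B < p
      · left
        obtain ⟨𝔯, h𝔯, x, hx1, hx2⟩ := hR v hv
        rw [Set.mem_iUnion₂]
        exact ⟨𝔯, h𝔯, hp, hpB, v, hv, hpv, x, hx1, hx2⟩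
      · right
        exact ⟨not_lt.1 hpB, hp.ne_zero⟩
  obtain ⟨𝔯, -, hinf⟩ := hex
  let ep := hinf.natEmbedding
  have hq : ∀ n, ((ep n : ℕ)).Prime ∧ B < (ep n : ℕ) ∧ ∃ v ∈ V, (((ep n : ℕ)) : 𝓞 K) ∈ v.asIdeal ∧
    ∃ x : 𝓞 K, InRay N x ∧ v.asIdeal * 𝔯 ^ (h - 1) = Ideal.span {x} := fun n => (ep n).2
  choose h1 h2 v h3 h4 x h5 h6 using hq
  refine ⟨𝔯, fun n => (ep n : ℕ), v, x, ?_, fun n => ⟨h1 n, h2 n, h3 n, h4 n, h5 n, h6 n⟩⟩
  intro i j hij
  exact ep.injective (Subtype.ext hij)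

end

section

variable {K E : Type} [Field K] [NumberField K] [Field E] [NumberField E]

theorem em_nat (σ : K →+* E) (n : ℕ) : em σ (n : 𝓞 K) = n :=
  map_natCast (RingOfIntegers.mapRingHom σ) n

/-- an element of `w` times an element prime to `w` is in `w ^ 2` only if the first factor is -/
theorem val_eq {w : HeightOneSpectrum (𝓞 E)} {x a b : 𝓞 E} (hx : x ∈ w.asIdeal)
    (hd : x ∣ a * b) (ha : a ∉ w.asIdeal ^ 2) (hb : b ∉ w.asIdeal) :
    w.intValuation x = WithZero.exp (-1 : ℤ) := by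
  have hb1 : w.intValuation b = 1 := by
    refine le_antisymm (w.intValuation_le_one b) (not_lt.1 fun h => ?_)
    exact hb ((w.intValuation_lt_one_iff_mem b).1 h)
  have ha0 : a ≠ 0 := by
    rintro rfl
    exact ha (Ideal.zero_mem _)
  have hb0 : b ≠ 0 := by
    rintro rfl
    exact hb (Ideal.zero_mem _)
  have hx0 : x ≠ 0 := by
    rintro rfl
    exact mul_ne_zero ha0 hb0 (zero_dvd_iff.1 hd)
  have hvx : w.intValuation x ≠ 0 := w.intValuation_ne_zero x hx0
  have hle : w.intValuation x ≤ WithZero.exp (-((1 : ℕ) : ℤ)) := by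
    rw [w.intValuation_le_pow_iff_mem, pow_one]
    exact hx
  have hge : ¬ w.intValuation x ≤ WithZero.exp (-((2 : ℕ) : ℤ)) := by
    intro h
    apply ha
    rw [← w.intValuation_le_pow_iff_mem]
    obtain ⟨y, hy⟩ := hd
    have h1 : w.intValuation a = w.intValuation x * w.intValuation y := by
      have := congrArg w.intValuation hy
      rwa [map_mul, map_mul, hb1, mul_one] at this
    rw [h1]
    exact (mul_le_of_le_one_right' (w.intValuation_le_one y)).trans h
  have h1 : WithZero.log (w.intValuation x) ≤ -((1 : ℕ) : ℤ) :=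
    (WithZero.log_le_iff_le_exp hvx).2 hle
  have h2 : ¬ WithZero.log (w.intValuation x) ≤ -((2 : ℕ) : ℤ) :=
    fun h => hge ((WithZero.log_le_iff_le_exp hvx).1 h)
  have h3 : WithZero.log (w.intValuation x) = -1 := by
    push_cast at h1 h2
    omega
  rw [← h3, WithZero.exp_log hvx]

end

theorem main : Pool.Agent.H500.TH.S_TCB1 := by
  classical
  intro K E _ _ _ _ hcard N r s hN hr V hV hVN
  obtain ⟨B, hB⟩ := Pool.Agent.H71.HC.Crt.main K E hcard
  obtain ⟨h, R, hh, -, hcls⟩ := Pool.Agent.H199.HC.Cls.main K N hN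
  obtain ⟨𝔯, q, v, x, hqinj, hq⟩ := exists_seq N B h R V hV (fun v hv =>
    (hcls v.asIdeal v.ne_bot (cop (hVN v hv).1)).2)
  have hqp : ∀ n, (q n).Prime := fun n => (hq n).1
  have hqB : ∀ n, B < q n := fun n => (hq n).2.1
  have hvV : ∀ n, v n ∈ V := fun n => (hq n).2.2.1
  have hqv : ∀ n, (q n : 𝓞 K) ∈ (v n).asIdeal := fun n => (hq n).2.2.2.1
  have hxr : ∀ n, InRay N (x n) := fun n => (hq n).2.2.2.2.1
  have hxv : ∀ n, (v n).asIdeal * 𝔯 ^ (h - 1) = Ideal.span {x n} := fun n => (hq n).2.2.2.2.2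
  have hcop : ∀ i j, i ≠ j → (q i).Coprime (q j) := fun i j hij =>
    (Nat.coprime_primes (hqp i) (hqp j)).2 (fun h => hij (hqinj h))
  -- the place `v 0`
  obtain ⟨y, hyr, hy⟩ := (hcls (v 0).asIdeal (v 0).ne_bot (cop (hVN _ (hvV 0)).1)).1
  -- the elements
  have hz : ∀ n, ∃ z : 𝓞 K, InRay N z ∧ (v n).asIdeal * (v 0).asIdeal ^ (h - 1) =
      Ideal.span {z} := by
    intro n
    have h1 : (v n).asIdeal * (v 0).asIdeal ^ (h - 1) * Ideal.span {x 0} =
        Ideal.span {x n * y} := by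
      rw [← Ideal.span_singleton_mul_span_singleton, ← hxv n, ← hxv 0, ← hy]
      have h2 : (v 0).asIdeal ^ h = (v 0).asIdeal ^ (h - 1) * (v 0).asIdeal := by
        rw [← pow_succ]
        congr 1
        omega
      rw [h2]
      ring
    have h2 : x 0 ∣ x n * y := by
      rw [← Ideal.mem_span_singleton]
      have h3 : x n * y ∈ (v n).asIdeal * (v 0).asIdeal ^ (h - 1) * Ideal.span {x 0} := by
        rw [h1]
        exact Ideal.mem_span_singleton_self _
      exact (Ideal.mul_le_right : (v n).asIdeal * (v 0).asIdeal ^ (h - 1) * Ideal.span {x 0} ≤ _) h3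
    obtain ⟨z, hz⟩ := h2
    refine ⟨z, ?_, ?_⟩
    · refine InRay.of_mul (y := x 0) ?_ (hxr 0)
      rw [mul_comm, ← hz]
      exact (hxr n).mul hyr
    · have h0 : (Ideal.span {x 0} : Ideal (𝓞 K)) ≠ 0 := by
        rw [Ne, Ideal.zero_eq_bot, Ideal.span_singleton_eq_bot]
        exact (hxr 0).1
      rw [hz, mul_comm, ← Ideal.span_singleton_mul_span_singleton] at h1
      exact mul_left_cancel₀ h0 h1
  choose z hzr hzv using hz
  refine ⟨Finset.image v (Finset.range (s + 1)), fun i => z (i + 1), ?_, fun i => ⟨hzr _, ?_⟩, ?_⟩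
  · intro w hw
    obtain ⟨n, -, rfl⟩ := Finset.mem_image.1 hw
    exact hvV n
  · exact ⟨v (i + 1), Finset.mem_image_of_mem _ (Finset.mem_range.2 (by omega)), v 0,
      Finset.mem_image_of_mem _ (Finset.mem_range.2 (by omega)), h - 1, hzv _⟩
  · rintro n ⟨ε, hε⟩
    funext i
    funext σ0
    show n i σ0 = 0
    obtain ⟨w, hw⟩ := exists_lift σ0 (v (i + 1))
    set p := q (i + 1) with hp
    set p0 := q 0 with hp0
    have hpw : (p : 𝓞 E) ∈ w.asIdeal := by
      have h1 := (hw (p : 𝓞 K)).2 (hqv (i + 1))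
      rwa [em_nat] at h1
    have hSp := (hVN _ (hvV (i + 1))).2 p w (hqp _) (hqv _) hpw
    have hnorm : Ideal.absNorm w.asIdeal = p := hSp.1
    have hp0w : ∀ m, (p0 : 𝓞 E) ^ m ∉ w.asIdeal := by
      intro m hm
      exact cop_mem w.isPrime.ne_top (hcop 0 (i + 1) (by omega)) (w.isPrime.mem_of_pow_mem _ hm) hpw
    -- divisibility
    have hdv : ∀ (j : ℕ) (a : 𝓞 K), a ∈ (v j).asIdeal → z j ∣ a * (p0 : 𝓞 K) ^ (h - 1) := by
      intro j a ha
      rw [← Ideal.mem_span_singleton, ← hzv j]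
      exact Ideal.mul_mem_mul ha (Ideal.pow_mem_pow (hqv 0) _)
    have hdvE : ∀ (σ : K →+* E) (j : ℕ) (a : 𝓞 K), a ∈ (v j).asIdeal →
        em σ (z j) ∣ em σ a * (p0 : 𝓞 E) ^ (h - 1) := by
      intro σ j a ha
      have h1 := map_dvd (RingOfIntegers.mapRingHom σ) (hdv j a ha)
      rw [map_mul, map_pow, map_natCast] at h1
      exact h1
    have hnot : ∀ (σ : K →+* E) (j : ℕ) (a : 𝓞 K), a ∈ (v j).asIdeal → em σ a ∉ w.asIdeal →
        em σ (z j) ∉ w.asIdeal := by
      intro σ j a ha hna hmem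
      rcases w.isPrime.mem_or_mem (Ideal.mem_of_dvd _ (hdvE σ j a ha) hmem) with h1 | h1
      · exact hna h1
      · exact hp0w _ h1
    have hzt : ∀ τ, τ ≠ σ0 → em τ (z (i + 1)) ∉ w.asIdeal := by
      intro τ hτ
      obtain ⟨-, h2⟩ := hB w (by rw [hnorm]; exact hqp _) (by rw [hnorm]; exact hqB _)
      obtain ⟨a, -, ha⟩ := h2 1 one_pos
        (by rw [hnorm]; exact fun hd => (hqp (i + 1)).one_lt.ne' (Nat.dvd_one.1 hd))
        (fun ρ => if ρ = σ0 then 0 else 1)
      have h3 := ha σ0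
      rw [if_pos rfl, Int.cast_zero, sub_zero, hw] at h3
      have h4 := ha τ
      rw [if_neg hτ, Int.cast_one] at h4
      refine hnot τ _ a h3 fun h7 => ?_
      apply w.isPrime.ne_top
      rw [Ideal.eq_top_iff_one]
      have h8 : (1 : 𝓞 E) = em τ a - (em τ a - 1) := by ring
      rw [h8]
      exact w.asIdeal.sub_mem h7 h4
    have hzj : ∀ j : ℕ, j ≠ i + 1 → ∀ τ, em τ (z j) ∉ w.asIdeal := by
      intro j hj τ
      refine hnot τ j (q j : 𝓞 K) (hqv j) fun h7 => ?_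
      rw [em_nat] at h7
      exact cop_mem w.isPrime.ne_top (hcop j (i + 1) hj) h7 hpw
    have hz0 : em σ0 (z (i + 1)) ∈ w.asIdeal := by
      rw [hw]
      have h1 : z (i + 1) ∈ (v (i + 1)).asIdeal * (v 0).asIdeal ^ (h - 1) := by
        rw [hzv]
        exact Ideal.mem_span_singleton_self _
      exact (Ideal.mul_le_left : (v (i + 1)).asIdeal * (v 0).asIdeal ^ (h - 1) ≤ _) h1
    have hval0 : w.intValuation (em σ0 (z (i + 1))) = WithZero.exp (-1 : ℤ) := by
      refine val_eq (a := (p : 𝓞 E)) (b := (p0 : 𝓞 E) ^ (h - 1)) hz0 ?_ hSp.2 (hp0w _)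
      have h1 := hdvE σ0 (i + 1) (p : 𝓞 K) (hqv _)
      rwa [em_nat] at h1
    have hval1 : ∀ a : 𝓞 E, a ∉ w.asIdeal → w.intValuation a = 1 := by
      intro a ha
      refine le_antisymm (w.intValuation_le_one a) (not_lt.1 fun h => ?_)
      exact ha ((w.intValuation_lt_one_iff_mem a).1 h)
    -- the valuation of the product
    have h1 := congrArg w.intValuation hε
    rw [map_pow, map_prod] at h1
    rw [Finset.prod_eq_single i] at h1
    · have h2 : w.intValuation (∏ σ, em σ (z (i + 1)) ^ (n i σ).val) =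
          WithZero.exp (-1 : ℤ) ^ (n i σ0).val := by
        rw [map_prod, Finset.prod_eq_single σ0]
        · rw [map_pow, hval0]
        · intro τ _ hτ
          rw [map_pow, hval1 _ (hzt τ hτ), one_pow]
        · intro h3
          exact absurd (Finset.mem_univ _) h3
      rw [h2] at h1
      have h3 := congrArg WithZero.log h1
      rw [WithZero.log_pow, WithZero.log_pow, WithZero.log_exp] at h3
      simp only [nsmul_eq_mul] at h3
      have h4 : (r : ℤ) ∣ ((n i σ0).val : ℤ) := by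
        refine ⟨-WithZero.log (w.intValuation ε), ?_⟩
        linarith
      have h6 : r ∣ (n i σ0).val := by exact_mod_cast h4
      have : NeZero r := ⟨hr.ne_zero⟩
      rw [← ZMod.natCast_zmod_val (n i σ0)]
      exact (ZMod.natCast_eq_zero_iff _ _).2 h6
    · intro j _ hj
      rw [map_prod]
      refine Finset.prod_eq_one fun τ _ => ?_
      rw [map_pow, hval1 _ (hzj (j + 1) (fun h => hj (Fin.ext (by omega))) τ), one_pow]
    · intro h2
      exact absurd (Finset.mem_univ _) h2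

end Pool.Agent.H139.TH.TCB1
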